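import Mathlib

/-!
# Closed points of arithmetic schemes

If `R` is a finitely generated domain of characteristic zero and `s ≠ 0` in `R`, then for all
large primes `p` there is a closed point of `Spec R` of residue characteristic `p` at which `s`
does not vanish.
-/

namespace Pool.Agent.PCurv

universe u

theorem isJacobsonRing_int : IsJacobsonRing ℤ := by
  rw [isJacobsonRing_iff_prime_eq]
  intro P hP
  by_cases h0 : P = ⊥
  · subst h0
    rw [eq_bot_iff]
    intro x hx
    rw [Ideal.mem_bot]
    by_contra hne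
    obtain ⟨p, hp, hpp⟩ := Nat.exists_infinite_primes (x.natAbs + 1)
    have hpp' : Prime (p : ℤ) := Nat.prime_iff_prime_int.1 hpp
    have hmax : (Ideal.span {(p : ℤ)}).IsMaximal :=
      PrincipalIdealRing.isMaximal_of_irreducible hpp'.irreducible
    have h1 : x ∈ Ideal.span {(p : ℤ)} := by
      rw [Ideal.jacobson, Ideal.mem_sInf] at hx
      exact hx ⟨bot_le, hmax⟩
    rw [Ideal.mem_span_singleton] at h1
    have h2 := Int.natAbs_dvd_natAbs.2 h1
    rw [Int.natAbs_natCast] at h2
    have h3 := Nat.le_of_dvd (Int.natAbs_pos.2 hne) h2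
    omega
  · have : P.IsMaximal := IsPrime.to_maximal_ideal h0
    exact Ideal.jacobson_eq_self_of_isMaximal

theorem exists_closedPoint (R : Type u) [CommRing R] [IsDomain R] [CharZero R]
    [Algebra.FiniteType ℤ R] (s : R) (hs : s ≠ 0) :
    ∃ P₀ : ℕ, ∀ p : ℕ, p.Prime → P₀ < p → ∃ (k : Type u) (_ : Field k) (π : R →+* k),
      Function.Surjective π ∧ π s ≠ 0 ∧ CharP k p := by
  have := isJacobsonRing_int
  have : IsJacobsonRing R := isJacobsonRing_of_finiteType (A := ℤ)
  let S := Localization.Away s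
  have : IsDomain S := IsLocalization.isDomain_localization (powers_le_nonZeroDivisors_of_noZeroDivisors hs)
  have hinj : Function.Injective (algebraMap R S) :=
    IsLocalization.injective S (powers_le_nonZeroDivisors_of_noZeroDivisors hs)
  have : Algebra.FiniteType ℤ S := Algebra.FiniteType.trans (S := R) inferInstance inferInstance
  let f : ℤ →+* S := algebraMap ℤ S
  have hf : f.FinitePresentation := by
    rw [← RingHom.FinitePresentation.of_finiteType]
    exact RingHom.finiteType_algebraMap.2 inferInstance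
  have hfinj : Function.Injective f := by
    have h1 : f = (algebraMap R S).comp (Int.castRingHom R) := RingHom.ext_int _ _
    rw [h1]
    exact hinj.comp Int.cast_injective
  obtain ⟨T, hT⟩ := PrimeSpectrum.exists_constructibleSetData_iff.2
    (PrimeSpectrum.isConstructible_range_comap hf)
  -- the generic point lies in the range
  have hbot : (⟨⊥, Ideal.isPrime_bot⟩ : PrimeSpectrum ℤ) ∈ T.toSet := by
    rw [hT]
    refine ⟨⟨⊥, Ideal.isPrime_bot⟩, ?_⟩
    ext1
    show Ideal.comap f ⊥ = ⊥
    rw [← RingHom.ker_eq_comap_bot, (RingHom.injective_iff_ker_eq_bot f).1 hfinj]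
  rw [PrimeSpectrum.ConstructibleSetData.toSet, Set.mem_iUnion₂] at hbot
  obtain ⟨C, hC, hCb⟩ := hbot
  rw [PrimeSpectrum.BasicConstructibleSetData.toSet, Set.mem_sdiff, PrimeSpectrum.mem_zeroLocus,
    PrimeSpectrum.mem_zeroLocus] at hCb
  have hg : ∀ i, C.g i = 0 := by
    intro i
    have := hCb.1 ⟨i, rfl⟩
    simpa using this
  have hf0 : C.f ≠ 0 := by
    intro h0
    apply hCb.2
    rintro x hx
    rw [Set.mem_singleton_iff] at hx
    rw [hx, h0]
    simp
  refine ⟨C.f.natAbs, fun p hp hlt => ?_⟩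
  have hpp' : Prime (p : ℤ) := Nat.prime_iff_prime_int.1 hp
  have hprime : (Ideal.span {(p : ℤ)}).IsPrime :=
    (Ideal.span_singleton_prime hpp'.ne_zero).2 hpp'
  have hmem : (⟨Ideal.span {(p : ℤ)}, hprime⟩ : PrimeSpectrum ℤ) ∈ T.toSet := by
    rw [PrimeSpectrum.ConstructibleSetData.toSet, Set.mem_iUnion₂]
    refine ⟨C, hC, ?_⟩
    rw [PrimeSpectrum.BasicConstructibleSetData.toSet, Set.mem_sdiff, PrimeSpectrum.mem_zeroLocus,
      PrimeSpectrum.mem_zeroLocus]
    constructor
    · rintro _ ⟨i, rfl⟩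
      rw [hg i]
      exact Ideal.zero_mem _
    · intro h
      have h1 : C.f ∈ Ideal.span {(p : ℤ)} := h rfl
      rw [Ideal.mem_span_singleton] at h1
      have h2 := Int.natAbs_dvd_natAbs.2 h1
      rw [Int.natAbs_natCast] at h2
      have h3 := Nat.le_of_dvd (Int.natAbs_pos.2 hf0) h2
      omega
  rw [hT] at hmem
  obtain ⟨Q, hQ⟩ := hmem
  have hQ' : Ideal.comap f Q.asIdeal = Ideal.span {(p : ℤ)} := congrArg PrimeSpectrum.asIdeal hQ
  obtain ⟨M, hM, hQM⟩ := Ideal.exists_le_maximal Q.asIdeal Q.2.ne_top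
  have hmax := (IsLocalization.isMaximal_iff_isMaximal_disjoint S s M).1 hM
  set I : Ideal R := Ideal.under R M with hI
  have : I.IsMaximal := hmax.1
  let _ := Ideal.Quotient.field I
  refine ⟨R ⧸ I, inferInstance, Ideal.Quotient.mk I, Ideal.Quotient.mk_surjective, ?_, ?_⟩
  · intro h
    exact hmax.2 (Ideal.Quotient.eq_zero_iff_mem.1 h)
  · have hpI : (p : R) ∈ I := by
      rw [hI, Ideal.under_def, Ideal.mem_comap]
      apply hQM
      have h1 : (p : ℤ) ∈ Ideal.comap f Q.asIdeal := by
        rw [hQ']; exact Ideal.mem_span_singleton_self _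
      rw [Ideal.mem_comap] at h1
      simpa using h1
    have hp0 : ((p : ℕ) : R ⧸ I) = 0 := by
      have h1 : Ideal.Quotient.mk I (p : R) = 0 := Ideal.Quotient.eq_zero_iff_mem.2 hpI
      simpa using h1
    exact (CharP.charP_iff_prime_eq_zero hp).2 hp0

end Pool.Agent.PCurv
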